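import Pool.Agent.TOR.FIN

/-!
MP_b72315_gt. On the 2-torus there are arbitrarily large finite sets of pairwise isospectral and
pairwise non-isometric smooth Riemannian metrics, in every `C^K` neighbourhood of the flat metric.

The torus is `ℝ² / (Pℤ × ℤ)`, `P > 1`, the metrics are `ds² + a(s)² dy²` with `a > 0` smooth and
`P`-periodic. `Isospectral` compares the dimensions of all eigenspaces of the Laplace-Beltrami
operator `u_ss + (a'/a) u_s + a⁻² u_yy` on smooth functions on the torus. `TorusIsometric` says that
there is a `C¹` diffeomorphism of the tori (given by its lift to the universal cover `ℝ²`) which pulls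
back one metric to the other.

The functions `a` are `1 + η (sum of translates of one small bump)`; the gaps between the bumps are
such that the matrices of the period maps of the equations of all Fourier modes are trace-equivalent
words in two matrices (the piece with a bump, and a flat piece).
-/

set_option autoImplicit false

namespace Pool.Agent.Results.MP_b72315_gt.IsospectralTori

open Pool.Agent.TOR
open scoped ContDiff

/-- For all `N`, `K`, `P > 1`, `ε > 0` there are `N` smooth positive `P`-periodic functions `a i`, with
all derivatives of `a i - 1` of order `≤ K` bounded by `ε`, such that the metrics `ds² + (a i)(s)² dy²` on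
the torus `ℝ² / (Pℤ × ℤ)` are pairwise isospectral and pairwise non-isometric. -/
theorem result (N K : ℕ) (P ε : ℝ) (hP : 1 < P) (hε : 0 < ε) :
    ∃ a : Fin N → ℝ → ℝ,
      (∀ i, ContDiff ℝ ∞ (a i) ∧ (∀ s, 0 < a i s) ∧ ∀ s, a i (s + P) = a i s) ∧
      (∀ i, ∀ n ≤ K, ∀ s, |iteratedDeriv n (fun x => a i x - 1) s| ≤ ε) ∧
      (∀ i j, Isospectral P (a i) (a j)) ∧
      ∀ i j, i ≠ j → ¬ TorusIsometric P (a i) (a j) :=
  main N K P ε hP hε

end Pool.Agent.Results.MP_b72315_gt.IsospectralTori
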